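import Mathlib
import Pool.Agent.R231.SP.Conv

set_option autoImplicit false

open Filter Topology Set Metric MeasureTheory

namespace Pool.Agent.Results.MP_2eb075_an.NotExtreme

open Pool.Agent.R231.SP

/-- `f` is an extreme point of the family `G` of maps on the ball: `f ∈ G`, and `f = t g + (1 - t) k`
on the ball with `g, k ∈ G`, `0 < t < 1` forces `g = k = f` on the ball -/
def IsExtremeMap (G : Set (ℂ × ℂ → ℂ × ℂ)) (f : ℂ × ℂ → ℂ × ℂ) : Prop :=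
  f ∈ G ∧ ∀ g ∈ G, ∀ k ∈ G, ∀ t : ℝ, 0 < t → t < 1 →
    (∀ z ∈ B2, f z = (t : ℂ) • g z + ((1 - t : ℝ) : ℂ) • k z) → ∀ z ∈ B2, g z = f z ∧ k z = f z

/-- the map `F(z) = (z₁ + a₀ z₂² / (2 - λ), z₂)` -/
noncomputable def F (l : ℝ) (z : ℂ × ℂ) : ℂ × ℂ :=
  (z.1 + ((a0 l / (2 - l) : ℝ) : ℂ) * z.2 ^ 2, z.2)

/-- For every `λ ∈ [1, 2)` the support point `F` of `S⁰_A` is not an extreme point of `S⁰_A`. More
precisely there are a polynomial map `U`, not identically `0` on the ball, and `ε₀ > 0` such that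
`F + ε U ∈ S⁰_A` for all complex `ε` with `|ε| ≤ ε₀`. -/
theorem result : ∀ l : ℝ, 1 ≤ l → l < 2 →
    IsGreatest (Sa l) (a0 l) ∧ F l ∈ S0A l ∧ ¬ IsExtremeMap (S0A l) (F l) ∧
    ∃ U : ℂ × ℂ → ℂ × ℂ, (∃ z ∈ B2, U z ≠ 0) ∧ ∃ ε₀ > (0 : ℝ), ∀ ε : ℂ, ‖ε‖ ≤ ε₀ →
      (fun z => F l z + ε • U z) ∈ S0A l := by
  intro l hl1 hl2
  have hgr := a0_isGreatest hl1
  obtain ⟨s, hs0, hs1, h1, h2⟩ := contact hl1 hgr
  set b : ℝ := a0 l / (2 - l) with hb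
  have hl2' : (2 - l) ≠ 0 := by linarith
  have D : Dat l (a0 l) s b := ⟨hl1, hl2, hs0, hs1, h1, h2, by rw [hb]; field_simp⟩
  have hbp := D.b_pos
  set ε₀ : ℝ := 1 / (16 * (1 + b) ^ 2) with hε₀
  have hε₀p : 0 < ε₀ := by positivity
  set U : ℂ × ℂ → ℂ × ℂ := fun z => (uu l s b z, 0) with hU
  have hmem : ∀ ε : ℂ, ‖ε‖ ≤ ε₀ → (fun z => F l z + ε • U z) ∈ S0A l := by
    intro ε hε
    have h3 := FF_mem D (e := ε) hε
    have h4 : FF l s b ε = fun z => F l z + ε • U z := by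
      funext z
      simp only [FF, F, XX, hU, Prod.smul_mk, smul_eq_mul, mul_zero, Prod.mk_add_mk, add_zero, hb]
    rw [← h4]
    exact h3
  have hF : F l ∈ S0A l := by
    have := hmem 0 (by simpa using hε₀p.le)
    simpa using this
  have hUne : ∃ z ∈ B2, U z ≠ 0 := by
    refine ⟨(1 / 2, 0), ?_, ?_⟩
    · show ‖(1 / 2 : ℂ)‖ ^ 2 + ‖(0 : ℂ)‖ ^ 2 < 1
      norm_num
    · have hc := (c1_bd D).1
      intro h
      have h5 := congrArg Prod.fst h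
      simp only [hU, uu, XX, Prod.fst_zero] at h5
      have h6 : (c1 l s : ℂ) = 0 := by linear_combination (-4) * h5
      exact hc.ne' (by exact_mod_cast h6)
  refine ⟨hgr, hF, ?_, U, hUne, ε₀, hε₀p, hmem⟩
  rintro ⟨_, hex⟩
  obtain ⟨z, hz, hUz⟩ := hUne
  have hn : ‖(ε₀ : ℂ)‖ ≤ ε₀ := by rw [Complex.norm_real, Real.norm_of_nonneg hε₀p.le]
  have hn' : ‖(-ε₀ : ℂ)‖ ≤ ε₀ := by rw [norm_neg]; exact hn
  have := (hex _ (hmem _ hn) _ (hmem _ hn') (1 / 2) (by norm_num) (by norm_num) (by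
    intro w _
    have h3 : ((1 / 2 : ℝ) : ℂ) = 1 / 2 := by norm_num
    have h4 : ((1 - 1 / 2 : ℝ) : ℂ) = 1 / 2 := by norm_num
    rw [h3, h4]
    module) z hz).1
  have h7 : (ε₀ : ℂ) • U z = 0 := by
    have := this
    simpa using this
  rcases smul_eq_zero.1 h7 with h | h
  · exact hε₀p.ne' (by exact_mod_cast h)
  · exact hUz h

end Pool.Agent.Results.MP_2eb075_an.NotExtreme
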